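import Mathlib

/-!
Integer 3SUM: do three of `n` given integers between `-n ^ 4` and `n ^ 4` have sum zero?
-/

namespace SmallDepth

/-- The input bits of integer 3SUM: the number with index `i < n` has a sign `(i, none)` and the
binary digits `(i, some l)` of its absolute value. -/
abbrev ZeroBits (n : ℕ) : Type := Fin n × Option (Fin (Nat.size (n ^ 4)))

/-- The number with index `i`. -/
def intVal {n : ℕ} (z : ZeroBits n → Bool) (i : Fin n) : ℤ :=
  (if z (i, none) = true then -1 else 1) *
    ∑ l : Fin (Nat.size (n ^ 4)), if z (i, some l) = true then 2 ^ (l : ℕ) else 0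

/-- The instance is valid: the numbers are pairwise distinct and lie between `-n ^ 4` and
`n ^ 4`. -/
def ZeroValid {n : ℕ} (z : ZeroBits n → Bool) : Prop :=
  Function.Injective (intVal z) ∧ ∀ i, |intVal z i| ≤ (n : ℤ) ^ 4

/-- Three numbers with different indices have sum zero. -/
def HasZero {n : ℕ} (z : ZeroBits n → Bool) : Prop :=
  ∃ i j k : Fin n, i ≠ j ∧ j ≠ k ∧ i ≠ k ∧ intVal z i + intVal z j + intVal z k = 0

end SmallDepth
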