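import Mathlib
import Pool.Agent.H559R14.Defs
import Pool.Agent.H592R4.Sum3Main

/-!
Hard instances of integer 3SUM (three numbers with sum zero).
-/

set_option linter.unusedSectionVars false

namespace H592R3.Hp

open Finset DomAC0 H568R2 SmallDepth

section Inst4
variable {n N R : ℕ}

/-- The instance: the numbers with index between `2 N` and `3 N` are negative. -/
def inst4 (n : ℕ) (hN : 0 < N) (D : Fin 3 × Fin N → Option (Fin R)) : ZeroBits n → Bool
  | (t, none) => decide (2 * N ≤ (t : ℕ) ∧ (t : ℕ) < 3 * N)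
  | (t, some l) => (sval3 hN D t).testBit l

/-- The sign of the number with index `t`. -/
def sg (N t : ℕ) : ℤ := if 2 * N ≤ t ∧ t < 3 * N then -1 else 1

lemma sg_cell (_hN : 0 < N) (m : Fin 3) (i : Fin N) : sg N (m * N + i) = if m = 2 then -1 else 1 := by
  have hi := i.2
  unfold sg
  by_cases hm : m = 2
  · subst hm
    rw [if_pos rfl, if_pos]
    constructor <;> simp <;> omega
  · rw [if_neg hm, if_neg]
    rintro ⟨h1, _⟩
    have h2 : (m : ℕ) ≤ 1 := by
      have := m.2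
      have h3 : (m : ℕ) ≠ 2 := fun h => hm (Fin.ext h)
      omega
    have h4 : (m : ℕ) * N ≤ 1 * N := Nat.mul_le_mul_right _ h2
    omega

lemma intVal_inst4 (hN : 0 < N) (D : Fin 3 × Fin N → Option (Fin R)) (hR : 0 < R)
    (hnR : n ≤ R) (hRn : 51 * R ≤ n ^ 4) (t : Fin n) :
    intVal (inst4 n hN D) t = sg N t * sval3 hN D t := by
  unfold intVal
  have h1 : (if inst4 n hN D (t, none) = true then (-1 : ℤ) else 1) = sg N t := by
    show (if decide (2 * N ≤ (t : ℕ) ∧ (t : ℕ) < 3 * N) = true then (-1 : ℤ) else 1) = sg N t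
    unfold sg
    simp only [decide_eq_true_eq]
  have h2 : ∀ l : Fin (Nat.size (n ^ 4)), (if inst4 n hN D (t, some l) = true then
      (2 : ℤ) ^ (l : ℕ) else 0) = (if (sval3 hN D t).testBit l = true then
      (2 : ℤ) ^ (l : ℕ) else 0) := fun l => rfl
  rw [h1, Finset.sum_congr rfl fun l _ => h2 l, sum_testBit]
  refine lt_of_le_of_lt ((sval3_lt hN D hR t.2 hnR).trans hRn) (Nat.lt_size_self _)

lemma sval3_pos (hN : 0 < N) (D : Fin 3 × Fin N → Option (Fin R)) (_hR : 0 < R) (t : ℕ) :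
    10 * R ≤ sval3 hN D t := by
  rcases sval3_cases hN D t with ⟨m, i, r, _, _, h⟩ | h
  · rw [h]
    unfold bas
    split_ifs <;> omega
  · rw [h]; omega

/-- The absolute values are pairwise distinct. -/
lemma sval3_inj (hN : 0 < N) (D : Fin 3 × Fin N → Option (Fin R)) (hR : 0 < R)
    (hnR : n ≤ R)
    (hD : ∀ m i i' r, D (m, i) = some r → D (m, i') = some r → i = i') (t t' : Fin n)
    (h' : sval3 hN D t = sval3 hN D t') : t = t' := by
  apply Fin.ext
  rcases sval3_cases hN D t with ⟨m, i, r, e1, e2, e3⟩ | e3 <;>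
  rcases sval3_cases hN D t' with ⟨m', i', r', f1, f2, f3⟩ | f3
  · rw [e3, f3] at h'
    have hr := r.2
    have hr' := r'.2
    have hm : m = m' := by
      fin_cases m <;> fin_cases m' <;> simp [bas] at h' ⊢ <;> omega
    subst hm
    have hrr : r = r' := by
      apply Fin.ext
      omega
    subst hrr
    rw [e1, f1, hD m i i' r e2 f2]
  · rw [e3, f3] at h'
    have hr := r.2
    unfold bas at h'
    split_ifs at h' <;> omega
  · rw [e3, f3] at h'
    have hr := r'.2
    unfold bas at h'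
    split_ifs at h' <;> omega
  · rw [e3, f3] at h'
    omega

lemma abs_sg (N t : ℕ) : |sg N t| = 1 := by
  unfold sg
  split_ifs <;> simp

lemma inst4_valid (hN : 0 < N) (D : Fin 3 × Fin N → Option (Fin R)) (hR : 0 < R)
    (hnR : n ≤ R) (hRn : 51 * R ≤ n ^ 4)
    (hD : ∀ m i i' r, D (m, i) = some r → D (m, i') = some r → i = i') :
    ZeroValid (inst4 n hN D) := by
  constructor
  · intro t t' h
    rw [intVal_inst4 hN D hR hnR hRn, intVal_inst4 hN D hR hnR hRn] at h
    apply sval3_inj hN D hR hnR hD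
    have h1 := congrArg abs h
    rw [abs_mul, abs_mul, abs_sg, abs_sg, one_mul, one_mul] at h1
    rw [abs_of_nonneg (by positivity), abs_of_nonneg (by positivity)] at h1
    exact_mod_cast h1
  · intro t
    rw [intVal_inst4 hN D hR hnR hRn, abs_mul, abs_sg, one_mul]
    have h1 := sval3_lt hN D hR t.2 hnR
    rw [abs_of_nonneg (by positivity)]
    exact_mod_cast h1.trans hRn

/-- Signs and absolute values. -/
lemma sval4_cases (hN : 0 < N) (D : Fin 3 × Fin N → Option (Fin R)) (hR : 0 < R) (t : ℕ)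
    (hn : t < n) (hnR : n ≤ R) :
    (∃ (i : Fin N) (r : Fin R), D (0, i) = some r ∧ sg N t * sval3 hN D t = 10 * R + r) ∨
    (∃ (i : Fin N) (r : Fin R), D (1, i) = some r ∧ sg N t * sval3 hN D t = 13 * R + r) ∨
    (∃ (i : Fin N) (r : Fin R), D (2, i) = some r ∧ sg N t * sval3 hN D t = -(23 * R + r)) ∨
    (∃ u : ℕ, u < R ∧ (sg N t * sval3 hN D t = 50 * R + u ∨
      sg N t * sval3 hN D t = -(50 * R + u))) := by
  rcases sval3_cases hN D t with ⟨m, i, r, e1, e2, e3⟩ | h
  · rw [e3, e1, sg_cell hN]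
    fin_cases m
    · left
      refine ⟨i, r, e2, ?_⟩
      simp [bas]
    · right; left
      refine ⟨i, r, e2, ?_⟩
      simp [bas]
    · right; right; left
      refine ⟨i, r, e2, ?_⟩
      simp [bas]
  · right; right; right
    refine ⟨t, by omega, ?_⟩
    rw [h]
    unfold sg
    split_ifs
    · right; push_cast; ring
    · left; push_cast; ring

lemma inst4_sum (hN : 0 < N) (D : Fin 3 × Fin N → Option (Fin R)) (hR : 0 < R)
    (hnR : n ≤ R) (hRn : 51 * R ≤ n ^ 4) (h3N : 3 * N ≤ n) :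
    HasZero (inst4 n hN D) ↔ ∃ (i j k : Fin N) (r s t : Fin R), D (0, i) = some r ∧
      D (1, j) = some s ∧ D (2, k) = some t ∧ r.val + s.val = t.val := by
  constructor
  · rintro ⟨a, b, c, _, _, _, h⟩
    simp only [intVal_inst4 hN D hR hnR hRn] at h
    have hR' : (1 : ℤ) ≤ R := by exact_mod_cast hR
    rcases sval4_cases hN D hR a a.2 hnR with ⟨i, r, e1, e2⟩ | ⟨i, r, e1, e2⟩ | ⟨i, r, e1, e2⟩ |
        ⟨u, e1, e2⟩ <;>
    rcases sval4_cases hN D hR b b.2 hnR with ⟨i', r', f1, f2⟩ | ⟨i', r', f1, f2⟩ |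
        ⟨i', r', f1, f2⟩ | ⟨u', f1, f2⟩ <;>
    rcases sval4_cases hN D hR c c.2 hnR with ⟨i'', r'', g1, g2⟩ | ⟨i'', r'', g1, g2⟩ |
        ⟨i'', r'', g1, g2⟩ | ⟨u'', g1, g2⟩ <;>
    first
    | (exfalso; omega)
    | exact ⟨i, i', i'', r, r', r'', e1, f1, g1, by omega⟩
    | exact ⟨i, i'', i', r, r'', r', e1, g1, f1, by omega⟩
    | exact ⟨i', i, i'', r', r, r'', f1, e1, g1, by omega⟩
    | exact ⟨i', i'', i, r', r'', r, f1, g1, e1, by omega⟩
    | exact ⟨i'', i, i', r'', r, r', g1, e1, f1, by omega⟩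
    | exact ⟨i'', i', i, r'', r', r, g1, f1, e1, by omega⟩
  · rintro ⟨i, j, k, r, s, t, h1, h2, h3, h4⟩
    have b1 : (0 : ℕ) * N + i < n := by have := i.2; omega
    have b2 : (1 : ℕ) * N + j < n := by have := j.2; omega
    have b3 : (2 : ℕ) * N + k < n := by have := k.2; omega
    refine ⟨⟨0 * N + i, b1⟩, ⟨1 * N + j, b2⟩, ⟨2 * N + k, b3⟩, ?_, ?_, ?_, ?_⟩
    · rw [Ne, Fin.mk.injEq]; have := i.2; omega
    · rw [Ne, Fin.mk.injEq]; have := j.2; omega
    · rw [Ne, Fin.mk.injEq]; have := i.2; omega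
    · rw [intVal_inst4 hN D hR hnR hRn, intVal_inst4 hN D hR hnR hRn,
        intVal_inst4 hN D hR hnR hRn]
      have e1 := sval3_cell hN D 0 i r h1
      have e2 := sval3_cell hN D 1 j s h2
      have e3 := sval3_cell hN D 2 k t h3
      have s1 : sg N (0 * N + i) = 1 := (sg_cell hN 0 i).trans (if_neg (by decide))
      have s2 : sg N (1 * N + j) = 1 := (sg_cell hN 1 j).trans (if_neg (by decide))
      have s3 : sg N (2 * N + k) = -1 := (sg_cell hN 2 k).trans (if_pos rfl)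
      simp only [Fin.val_zero, Fin.val_one, Fin.val_two] at e1 e2 e3
      show sg N (0 * N + i) * ((sval3 hN D (0 * N + i) : ℕ) : ℤ) +
        sg N (1 * N + j) * ((sval3 hN D (1 * N + j) : ℕ) : ℤ) +
        sg N (2 * N + k) * ((sval3 hN D (2 * N + k) : ℕ) : ℤ) = 0
      rw [e1, e2, e3, s1, s2, s3]
      have h5 : (r.val : ℤ) + s.val = t.val := by exact_mod_cast h4
      simp only [bas]
      norm_num
      linarith

lemma uq4_no {a : (Fin 3 → Fin N) × Pr R} {X : ((Fin 3 × Fin N) × Fin R) → Bool}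
    (h : Uq3 a X) (hN : 0 < N) (hR : 0 < R) (hnR : n ≤ R) (hRn : 51 * R ≤ n ^ 4)
    (h3N : 3 * N ≤ n) :
    ZeroValid (inst4 n hN (dec X)) ∧ ¬ HasZero (inst4 n hN (dec X)) := by
  constructor
  · apply inst4_valid hN _ hR hnR hRn
    intro m i i' r h1 h2
    by_contra hne
    exact h.2.2.1 m i i' r hne ((dec_iff _ _ _).1 h1).1 ((dec_iff _ _ _).1 h2).1
  · rw [inst4_sum hN _ hR hnR hRn h3N]
    rintro ⟨i, j, k, r, s, t, h1, h2, h3, h4⟩
    obtain ⟨m, hm⟩ := h.2.1 (fun m => if m = 0 then i else if m = 1 then j else k,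
      ⟨(r, s), by show r.val + s.val < R; rw [h4]; exact t.2⟩)
    have e1 := ((dec_iff _ _ _).1 h1).1
    have e2 := ((dec_iff _ _ _).1 h2).1
    have e3 := ((dec_iff _ _ _).1 h3).1
    have ht : (⟨r.val + s.val, by rw [h4]; exact t.2⟩ : Fin R) = t := Fin.ext h4
    rw [← ht] at e3
    unfold vr3 cand at hm
    fin_cases m
    · simp at hm; rw [e1] at hm; cases hm
    · simp at hm; rw [e2] at hm; cases hm
    · simp at hm; rw [e3] at hm; cases hm

lemma uq4_yes {a : (Fin 3 → Fin N) × Pr R} {X : ((Fin 3 × Fin N) × Fin R) → Bool}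
    (h : Uq3 a X) (hN : 0 < N) (hR : 0 < R) (hnR : n ≤ R) (hRn : 51 * R ≤ n ^ 4)
    (h3N : 3 * N ≤ n) :
    ZeroValid (inst4 n hN (dec (plant (vr3 (fun x => x) a) univ X))) ∧
      HasZero (inst4 n hN (dec (plant (vr3 (fun x => x) a) univ X))) := by
  constructor
  · apply inst4_valid hN _ hR hnR hRn
    intro m i i' r h1 h2
    rcases dec_plant_cases h1 with ⟨k1, k2⟩ | k1 <;> rcases dec_plant_cases h2 with ⟨l1, l2⟩ | l1
    · exact k1.symm.trans l1
    · exfalso
      rw [← k2, h.2.2.2 m i'] at l1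
      cases l1
    · exfalso
      rw [← l2, h.2.2.2 m i] at k1
      cases k1
    · by_contra hne
      exact h.2.2.1 m i i' r hne k1 l1
  · rw [inst4_sum hN _ hR hnR hRn h3N]
    exact ⟨a.1 0, a.1 1, a.1 2, cand a.2 0, cand a.2 1, cand a.2 2, dec_planted h.1 0,
      dec_planted h.1 1, dec_planted h.1 2, rfl⟩

lemma inst4_row (hN : 0 < N) :
    RowDep (fun X : ((Fin 3 × Fin N) × Fin R) → Bool => inst4 n hN (dec X)) := by
  rintro ⟨t, b⟩
  cases b with
  | none => exact ⟨(0, ⟨0, hN⟩), fun X X' _ => rfl⟩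
  | some l =>
    by_cases h : (t : ℕ) < 3 * N
    · refine ⟨(⟨t / N, Nat.div_lt_of_lt_mul (by rw [mul_comm N 3]; exact h)⟩,
        ⟨t % N, Nat.mod_lt _ hN⟩), fun X X' hX => ?_⟩
      have := dec_congr hX
      show (sval3 hN (dec X) t).testBit l = (sval3 hN (dec X') t).testBit l
      unfold sval3
      rw [dif_pos h, dif_pos h, this]
    · refine ⟨(0, ⟨0, hN⟩), fun X X' _ => ?_⟩
      show (sval3 hN (dec X) t).testBit l = (sval3 hN (dec X') t).testBit l
      unfold sval3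
      rw [dif_neg h, dif_neg h]

lemma card_zeroBits (hn : 3 ≤ n) : Fintype.card (ZeroBits n) ≤ n ^ 4 := by
  rw [Fintype.card_prod, Fintype.card_option, Fintype.card_fin, Fintype.card_fin]
  have h1 : Nat.size (n ^ 4) ≤ 4 * n := by
    rw [Nat.size_le]
    calc n ^ 4 < (2 ^ n) ^ 4 := Nat.pow_lt_pow_left Nat.lt_two_pow_self (by norm_num)
      _ = 2 ^ (4 * n) := by rw [← pow_mul, mul_comm]
  have h2 : n * (Nat.size (n ^ 4) + 1) ≤ n * (4 * n + 1) := Nat.mul_le_mul_left _ (by omega)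
  have h3 : 4 * n + 1 ≤ n ^ 3 := by
    have : 9 ≤ n ^ 2 := by nlinarith
    have e : n ^ 3 = n ^ 2 * n := by ring
    rw [e]
    nlinarith
  calc n * (Nat.size (n ^ 4) + 1) ≤ n * (4 * n + 1) := h2
    _ ≤ n * n ^ 3 := Nat.mul_le_mul_left _ h3
    _ = n ^ 4 := by ring

end Inst4

end H592R3.Hp
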