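import Mathlib
import Pool.Agent.H559R14.Inst

/-!
The lower bound for integer 3SUM.
-/

set_option linter.unusedSectionVars false

namespace H592R3.Hp

open Finset DomAC0 H568R2 SmallDepth

/-- A larger bound on the depth. -/
theorem bounded_mono {J : Type} {d d' S : ℕ} (hd : d ≤ d') :
    ∀ (G : Game J) {g : ℕ}, G.Bounded d S g → G.Bounded d' S g
  | .verify _, _, h => ⟨h.1.trans hd, h.2⟩
  | .merlin _ next, _, h => ⟨h.1, fun z => bounded_mono hd (next z) (h.2 z)⟩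
  | .arthur _ _ next, _, h => ⟨h.1, h.2.1, fun i => bounded_mono hd (next i) (h.2.2 i)⟩

section Main4
variable {n N R : ℕ}

open Classical in
/-- The general form of the lower bound. -/
theorem zero_main (ε : ℝ) (hε : 0 < ε) : ∃ C : ℝ, 0 < C ∧ ∀ n d g S : ℕ, 2 ≤ n → 1 ≤ d →
    C * (d * Real.log (Real.log n + g + 2)) ≤ Real.log n →
    ∀ G : Game (ZeroBits n), G.Bounded d S g →
    (∀ (N R : ℕ) (hN : 0 < N), 0 < R → n ≤ R → 51 * R ≤ n ^ 4 → 3 * N ≤ n →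
      ∀ X : ((Fin 3 × Fin N) × Fin R) → Bool,
      ∑ a : (Fin 3 → Fin N) × Pr R, (1 / 3) * (1 - (if ¬ Uq3 a X then (1 : ℝ) else 0)) ≤
        ms (vr3 (fun x => x)) (fun X => inst4 n hN (dec X)) G X) →
    (n : ℝ) ^ (2 - ε) < S := by
  obtain ⟨C, hC, hpar⟩ := params5 ε hε
  refine ⟨C, hC, ?_⟩
  intro n d g S hn hd hcond G hG hpt
  by_contra hcon
  rw [not_lt] at hcon
  obtain ⟨h, l, hh, c1, c2, hrest⟩ := hpar n d g hn hd hcond 2 (by norm_num) S hcon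
  obtain ⟨N, hN⟩ : ∃ N, N = n / 100 := ⟨_, rfl⟩
  obtain ⟨R, hR⟩ : ∃ R, R = n ^ 3 / 51 := ⟨_, rfl⟩
  have hhR : (1 : ℝ) ≤ h := by exact_mod_cast hh
  -- n is large
  have hbig : (10 : ℝ) ^ 9 ≤ n := by
    refine le_trans ?_ c2
    have h1 : (1 : ℝ) ≤ (24 * (h : ℝ)) ^ d := one_le_pow₀ (by linarith)
    have h2 : (1 : ℝ) ≤ (24 * (h : ℝ)) ^ d * h := by nlinarith
    linarith
  have hbig' : 10 ^ 9 ≤ n := by exact_mod_cast hbig
  have hN1 : 0 < N := by omega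
  have h3N : 3 * N ≤ n := by omega
  have hn3 : n ^ 3 = n * n ^ 2 := by ring
  have hn2 : 10 ^ 9 * n ≤ n ^ 2 := by rw [sq]; exact Nat.mul_le_mul_right _ hbig'
  have hn2' : 51 ≤ n ^ 2 := by omega
  have hnR : n ≤ R := by
    rw [hR, Nat.le_div_iff_mul_le (by norm_num), hn3]
    exact Nat.mul_le_mul_left _ hn2'
  have hR0 : 0 < R := by omega
  have hRn3 : 51 * R ≤ n ^ 3 := by rw [hR]; exact Nat.mul_div_le _ _
  have hRn : 51 * R ≤ n ^ 4 := hRn3.trans (Nat.pow_le_pow_right (by omega) (by norm_num))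
  have hNR : N ^ 3 ≤ R := by
    rw [hR, Nat.le_div_iff_mul_le (by norm_num)]
    have h1 : 100 * N ≤ n := by omega
    have h2 : (100 * N) ^ 3 ≤ n ^ 3 := Nat.pow_le_pow_left h1 3
    have h3 : (100 * N) ^ 3 = 1000000 * N ^ 3 := by ring
    omega
  have hRn4 : R ≤ n ^ 4 := by
    have : n ^ 3 ≤ n ^ 4 := Nat.pow_le_pow_right (by omega) (by norm_num)
    omega
  have hNn2 : N ≤ n ^ 2 := by omega
  obtain ⟨hlen, hN2⟩ := hrest (Fintype.card (ZeroBits n)) N R (card_zeroBits (by omega)) hNn2 hRn4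
  have hNreal : (n : ℝ) ≤ 200 * N := by
    have : n ≤ 200 * N := by omega
    exact_mod_cast this
  have hN0 : (0 : ℝ) < N := by exact_mod_cast hN1
  refine sum_core (F := Fin N) (A := Fin 3 → Fin N) (J := ZeroBits n) (R := R)
    (fun x => x) (κ1 := N ^ 2) (κ2 := N) cnt3_one cnt3_two ?_ hR0
    (fun X => inst4 n hN1 (dec X)) (inst4_row hN1) G hG (h := h) (l := l) hh hlen Zf3
    (fun a => zf3_sum a hR0 hN1 hNR) Uq3 uq3_of (hpt N R hN1 hR0 hnR hRn h3N) ?_ ?_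
  · rw [Fintype.card_fun, Fintype.card_fin, Fintype.card_fin]
    positivity
  · rw [Fintype.card_fun, Fintype.card_fin, Fintype.card_fin]
    push_cast
    have e1 : (n : ℝ) ^ (2 : ℝ) = (n : ℝ) ^ 2 := by norm_num
    rw [e1] at c1
    obtain ⟨P, hP⟩ : ∃ P : ℝ, P = (S : ℝ) * (24 * h) ^ (2 * d) * (h : ℝ) ^ 2 * (l : ℝ) ^ 2 :=
      ⟨_, rfl⟩
    obtain ⟨Q, hQ⟩ : ∃ Q : ℝ, Q = (24 * (h : ℝ)) ^ d * h := ⟨_, rfl⟩
    rw [← hP] at c1
    rw [← hQ] at c2
    have e2 : 331776 * (S : ℝ) * (24 * h) ^ (2 * d) * (h : ℝ) ^ 2 * (l : ℝ) ^ 2 * N +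
        6912 * (24 * (h : ℝ)) ^ d * h * (N : ℝ) ^ 2 = 331776 * P * N + 6912 * Q * (N : ℝ) ^ 2 := by
      rw [hP, hQ]; ring
    rw [e2]
    have hn2R : (n : ℝ) ^ 2 ≤ 40000 * (N : ℝ) ^ 2 := by nlinarith
    have hP2 : P * 10 ^ 12 ≤ 40000 * (N : ℝ) ^ 2 := by linarith
    have hQ2 : Q * 10 ^ 9 ≤ 200 * N := by linarith
    have f1 : 331776 * P * N ≤ (1 / 2) * (N : ℝ) ^ 3 := by
      have : 331776 * P ≤ (1 / 2) * (N : ℝ) ^ 2 := by nlinarith
      calc 331776 * P * N ≤ (1 / 2) * (N : ℝ) ^ 2 * N := by gcongr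
        _ = _ := by ring
    have f2 : 6912 * Q * (N : ℝ) ^ 2 ≤ (1 / 2) * (N : ℝ) ^ 3 := by
      have : 6912 * Q ≤ (1 / 2) * (N : ℝ) := by linarith
      calc 6912 * Q * (N : ℝ) ^ 2 ≤ (1 / 2) * (N : ℝ) * (N : ℝ) ^ 2 := by gcongr
        _ = _ := by ring
    linarith
  · rw [Fintype.card_fin]
    exact hN2

/-- The lower bound for interactive proofs of no-instances of 3SUM. -/
theorem zero_game (ε : ℝ) (hε : 0 < ε) : ∃ C : ℝ, 0 < C ∧ ∀ n d g S : ℕ, 2 ≤ n → 1 ≤ d →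
    C * (d * Real.log (Real.log n + g + 2)) ≤ Real.log n →
    ∀ G : Game (ZeroBits n), G.Bounded d S g →
    (∀ z, ZeroValid z → ¬ HasZero z → 2 / 3 ≤ G.value z) →
    (∀ z, ZeroValid z → HasZero z → G.value z ≤ 1 / 3) →
    (n : ℝ) ^ (2 - ε) < S := by
  obtain ⟨C, hC, h⟩ := zero_main ε hε
  refine ⟨C, hC, ?_⟩
  intro n d g S hn hd hcond G hG hyes hno
  apply h n d g S hn hd hcond G hG
  intro N R hN hR hnR hRn h3N X
  refine game_pt (vr3 (fun x => x)) (fun X => inst4 n hN (dec X)) G hG Uq3 ?_ ?_ X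
  · intro a X hU
    have := uq4_no hU hN hR hnR hRn h3N
    exact hyes _ this.1 this.2
  · intro a X hU
    have := uq4_yes hU hN hR hnR hRn h3N
    exact hno _ this.1 this.2

/-- The lower bound for randomized circuits for 3SUM. -/
theorem zero_rand (ε : ℝ) (hε : 0 < ε) : ∃ C : ℝ, 0 < C ∧ ∀ n d S : ℕ, 2 ≤ n → 1 ≤ d →
    C * (d * Real.log (Real.log n + 2)) ≤ Real.log n →
    ∀ Rc : RandCircuit (ZeroBits n), Rc.Bounded d S →
    (∀ z, ZeroValid z → Rc.Correct z (HasZero z)) →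
    (n : ℝ) ^ (2 - ε) < S := by
  obtain ⟨C, hC, h⟩ := zero_main ε hε
  refine ⟨C, hC, ?_⟩
  intro n d S hn hd hcond Rc hRc hcor
  let _ := Rc.fin
  obtain ⟨eq⟩ : Nonempty (Rc.Ω ≃ Fin (Fintype.card Rc.Ω)) := ⟨Fintype.equivFin Rc.Ω⟩
  have hp1 : ∑ i, Rc.prob (eq.symm i) = 1 := by
    rw [← Rc.total]
    exact Equiv.sum_comp eq.symm Rc.prob
  apply h n d 0 S hn hd (by
    simpa using hcond) (Game.arthur (Fintype.card Rc.Ω) (fun i => Rc.prob (eq.symm i))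
      (fun i => .verify (Rc.circ (eq.symm i))))
    ⟨fun i => Rc.nonneg _, hp1, fun i => ⟨(hRc _).1, (hRc _).2⟩⟩
  intro N R hN hR hnR hRn h3N X
  refine rand_pt (vr3 (fun x => x)) (fun X => inst4 n hN (dec X)) _ (fun i => Rc.nonneg _) hp1 _
    Uq3 ?_ ?_ X
  · intro a X hU
    have hv := uq4_no hU hN hR hnR hRn h3N
    have h1 := hcor _ hv.1
    unfold RandCircuit.Correct at h1
    simp only [hv.2, decide_false] at h1
    refine h1.trans (le_of_eq ?_)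
    exact (Equiv.sum_comp eq.symm (fun ω =>
      if (Rc.circ ω).eval (inst4 n hN (dec X)) = false then Rc.prob ω else 0)).symm
  · intro a X hU
    have hv := uq4_yes hU hN hR hnR hRn h3N
    have h1 := hcor _ hv.1
    unfold RandCircuit.Correct at h1
    simp only [hv.2, decide_true] at h1
    refine h1.trans (le_of_eq ?_)
    exact (Equiv.sum_comp eq.symm (fun ω =>
      if (Rc.circ ω).eval (inst4 n hN (dec (plant (vr3 (fun x => x) a) univ X))) = true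
      then Rc.prob ω else 0)).symm

end Main4

end H592R3.Hp
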